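import Pool.Agent.TH466.QT.Fin
import Pool.Agent.TH466.QT.Den

/-!
# Potential density for rationally connected varieties dominated by systems of high powers

Let `V` be an irreducible component, of dimension `w`, of a projective variety in `P^n` given by
equations which are sums of at most `s` powers of linear forms, or by forms with at most `s`
monomials and divisible exponents, and let the exponents be at least `N`, where
`N ≥ r w (s + 4) (s - 1) (s - 2) / 2`. We show that every rationally connected projective variety
`X` which is birational to a quotient `V / G` by a group `G` of at most `r` birational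
automorphisms, or such that there is a dominant rational map `V ⇢ X` of degree `d`, `d ! ≤ r`, is
unirational and potentially dense; instead of rational connectedness we only assume that `X` has no
nonzero holomorphic tensor differentials.

The function-field language of the starting repository is used: `K`, `K'` and `L` are the function
fields of `V`, `X'` and `X`, and `x` is the generic point of `X` in `P^M`; `coords k x = ⊤` says
that the ratios of its coordinates generate `L`; `SubVar`, `IsComponent`: `K` is the function field,
and `y` the generic point, of an irreducible component of dimension `w` (`Pool/Agent/W602/GT`);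
`TensorVanish L w`: `H⁰ (X, (Ω¹) ^ ⊗ m) = 0` for all `m ≥ 1`, and `IsUnirational L w`: `L` embeds
into `k(t_1, ..., t_w)` (`Pool/Agent/W619/TW`); `PotentiallyDense x`: for some finitely generated
subfield of `k` (a number field, if `k` is the field of algebraic numbers) the points of `X` with
coordinates in this field are Zariski-dense (`Pool/Agent/TH466/QT/Den.lean`).
-/

set_option autoImplicit false

namespace Pool.Agent.Results.MP_b62148_ag.DominatedDensity

open FF Pool.Agent.W602.GT
open Pool.Agent.W619.TW (TensorVanish IsUnirational)
open Pool.Agent.TH466.QT (PotentiallyDense)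

/-- Let `V`, `w`, `s`, `N`, `r` be as above. **(1)** Let `X` be a variety with generically finite
dominant rational maps `X' ⇢ V` (of any degree) and `X' ⇢ X`, the second one being the quotient by a
group of at most `r` birational automorphisms of `X'`, or of degree `d` with `d ! ≤ r`. If `X` has
no nonzero holomorphic tensor differentials, for instance if `X` is rationally connected, then `V`
is rational, and all projective varieties dominated by `V` are unirational and potentially dense.
**(2)** Let `X` be a projective variety which is birational to the quotient of `V` by a group of at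
most `r` birational automorphisms, or the image of `V` by a rational map of degree `d`, `d ! ≤ r`.
If `X` has no nonzero holomorphic tensor differentials, then `X` is unirational and potentially
dense. -/
theorem result {k : Type} [Field k] [IsAlgClosed k] [CharZero k] {n : ℕ} {ι : Type}
    {F : ι → MvPolynomial (Fin (n + 1)) k} {s N : ℕ} (hF : HighPowers s N F) (hN1 : 1 ≤ N)
    {K : Type} [Field K] [Algebra k K] {w : ℕ} {y : Fin (n + 1) → K}
    (hy : SubVar F K w y) (hcomp : IsComponent F y) {r : ℕ}
    (hN : r * (w * ((s + 4) * ((s - 1) * (s - 2) / 2))) ≤ N) :
    (∀ (K' L : Type) [Field K'] [Field L] [Algebra k K'] [Algebra k L] [Algebra K K']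
        [Algebra L K'] [IsScalarTower k K K'] [IsScalarTower k L K'] [Algebra.IsAlgebraic K K']
        [FiniteDimensional L K'],
        ((IsGalois L K' ∧ Module.finrank L K' ≤ r) ∨ (Module.finrank L K').factorial ≤ r) →
        TensorVanish k L w →
        (∃ t : Fin w → K, AlgebraicIndependent k t ∧
          IntermediateField.adjoin k (Set.range t) = ⊤) ∧
        ∀ (E : Type) [Field E] [Algebra k E] [Algebra E K] [IsScalarTower k E K],
          IsUnirational k E w ∧ ∀ (M : ℕ) (x : Fin (M + 1) → E), x ≠ 0 → coords k x = ⊤ →
            PotentiallyDense k x) ∧
    ∀ (L : Type) [Field L] [Algebra k L] [Algebra L K] [IsScalarTower k L K]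
      [FiniteDimensional L K],
      ((IsGalois L K ∧ Module.finrank L K ≤ r) ∨ (Module.finrank L K).factorial ≤ r) →
      TensorVanish k L w →
      IsUnirational k L w ∧ ∀ (M : ℕ) (x : Fin (M + 1) → L), x ≠ 0 → coords k x = ⊤ →
        PotentiallyDense k x := by
  rcases Pool.Agent.TH466.QT.quot_main hF hN1 hy hcomp hN with h | h
  · obtain ⟨t, ht, htop⟩ := h
    have h1 : ∀ (L : Type) [Field L] [Algebra k L] [Algebra L K] [IsScalarTower k L K],
        IsUnirational k L w := fun L _ _ _ _ =>
      Pool.Agent.TH466.QT.unirational_of_sub ht htop
    have h2 : ∀ (L : Type) [Field L] [Algebra k L] [Algebra L K] [IsScalarTower k L K],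
        IsUnirational k L w ∧ ∀ (M : ℕ) (x : Fin (M + 1) → L), x ≠ 0 → coords k x = ⊤ →
          PotentiallyDense k x := fun L _ _ _ _ =>
      ⟨h1 L, fun M x hx _ => Pool.Agent.TH466.QT.dense_of_unirational (h1 L) hx⟩
    exact ⟨fun K' L _ _ _ _ _ _ _ _ _ _ _ _ => ⟨⟨t, ht, htop⟩, h2⟩, fun L _ _ _ _ _ _ _ => h2 L⟩
  · refine ⟨fun K' L _ _ _ _ _ _ _ _ _ _ hr hS => ?_, fun L _ _ _ _ _ hr hS => ?_⟩
    · exact absurd hS (h K' L hr).2.1
    · exact absurd hS (h K L hr).2.1

end Pool.Agent.Results.MP_b62148_ag.DominatedDensity
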