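import Mathlib
import Pool.Agent.TH8.UDK.KFin

/-!
MP_b62148_ag: density of the rational points of a projective variety over a field `L` which form
sequences given by linear recurrences. Such a sequence exists if and only if the variety is
unirational over `L`.
-/

set_option autoImplicit false

namespace Pool.Agent.Results.MP_b62148_ag.RecursiveUnirational

open MvPolynomial Filter
open Pool.Agent.TH143 Pool.Agent.TH143.GT Pool.Agent.TH143.DE Pool.Agent.TH8 Pool.Agent.TH8.UNI
  Pool.Agent.TH8.UDE

/-- Let `k` be a field with an embedding in `ℂ`, for instance a number field, and let `X` be the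
projective variety over `k` given by the forms in `T`. Let `K`, `y` and `w` be the function field,
the generic point and the dimension of the variety over `ℂ`, and `p` its ideal.

**(1)** For every field `L` between `k` and `ℂ` the following are equivalent:

- `X` is dominated by an affine space over `L`, that is, `X` is unirational over `L`;
- there is a sequence of points of `X` over `L` whose homogeneous coordinates are
`∑ a j i * i ^ m`, with `a j i` in `L`, and whose graph is Zariski-dense in the product of the
affine line and `X`;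
- there is a Zariski-dense sequence of points of `X` over `L` whose homogeneous coordinates satisfy
linear recurrences with constant coefficients in `ℂ`;
- there is a sequence of points of `X` over `L` whose homogeneous coordinates satisfy linear
recurrences whose coefficients are polynomials over `ℂ` in `m` (or, more generally, in the terms
`t m` of a sequence of distinct elements of `L` with `t (m + 1) = α * t m + β`), and whose graph is
Zariski-dense in the product of the affine line and `X`;
- there are a field `B` of sequences in `L`, closed under shifts, and a sequence of points of `X`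
over `L` whose homogeneous coordinates satisfy linear recurrences over `B`, and which is
Zariski-dense over `B`.

**(2)** `X` is unirational over `ℂ` if and only if these statements hold for some finite
extension `L` of `k`. -/
theorem result {n : ℕ} (k : Type) [Field k] [Algebra k ℂ]
    (T : Set (MvPolynomial (Fin (n + 1)) k)) (hT : ∀ G ∈ T, ∃ d, G.IsHomogeneous d)
    (p : Ideal (MvPolynomial (Fin (n + 1)) ℂ))
    (hp : p = Ideal.span (MvPolynomial.map (algebraMap k ℂ) '' T)) (K : Type) [Field K]
    [Algebra ℂ K] (w : ℕ) (y : Fin (n + 1) → K) (hy : FunField p 1 K w y) :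
    (∀ L : IntermediateField k ℂ,
      List.TFAE [DomOver L p,
        ∃ (M : ℕ) (a : Fin (n + 1) → ℕ → L),
          (∀ m, dirSeq M (fun j i => (a j i : ℂ)) m ≠ 0) ∧
          SeqIn p (dirSeq M fun j i => (a j i : ℂ)) ∧
          SeqGraphDense p (fun m => (m : ℂ)) (dirSeq M fun j i => (a j i : ℂ)),
        ∃ x : ℕ → Fin (n + 1) → L, (∀ j, CRec fun m => (x m j : ℂ)) ∧ (∀ m, x m ≠ 0) ∧
          SeqIn p (fun m j => (x m j : ℂ)) ∧ SeqDense p (fun m j => (x m j : ℂ)),
        ∃ (t : ℕ → L) (α β : ℂ) (x : ℕ → Fin (n + 1) → L), Function.Injective t ∧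
          (∀ m, (t (m + 1) : ℂ) = α * t m + β) ∧
          (∀ j, RecAlong (fun m => (t m : ℂ)) fun m => (x m j : ℂ)) ∧ (∀ m, x m ≠ 0) ∧
          SeqIn p (fun m j => (x m j : ℂ)) ∧
          SeqGraphDense p (fun m => (t m : ℂ)) (fun m j => (x m j : ℂ)),
        ∃ (B : Subalgebra L (ℕ → L)) (x : ℕ → Fin (n + 1) → L), UDK.K.CoefField B ∧
          UDK.K.Back B ∧ (∀ j, UDK.K.LinRec B fun m => x m j) ∧ (∀ m, x m ≠ 0) ∧
          SeqIn p (fun m j => (x m j : ℂ)) ∧
          UDK.K.DenseSeq B (fun G => MvPolynomial.map (algebraMap L ℂ) G ∈ p) x]) ∧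
    (Unirational K ↔ ∃ L : IntermediateField k ℂ, FiniteDimensional k L ∧ DomOver L p) := by
  refine ⟨fun L => ?_, ?_, ?_⟩
  · have hT' := UDK.K.form_up (L := L) hT
    have hp' := UDK.K.span_up (L := L) T hp
    tfae_have 1 → 2 := fun h => dirSeq_of_dom L hy h
    tfae_have 2 → 3 := by
      rintro ⟨M, a, h0, h1, h2⟩
      obtain ⟨x, e1, e2, e3, e4⟩ := UDK.K.crec_of_dir (𝕜 := L) (M := M) (a := a) h0 h1 h2
      exact ⟨x, e1, e2, e3, e4.dense⟩
    tfae_have 2 → 4 := by
      rintro ⟨M, a, h0, h1, h2⟩
      obtain ⟨x, e1, e2, e3, e4⟩ := UDK.K.crec_of_dir (𝕜 := L) (M := M) (a := a) h0 h1 h2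
      have hm : (fun m : ℕ => (((m : ℕ) : L) : ℂ)) = fun m : ℕ => (m : ℂ) := by
        funext m
        push_cast
        rfl
      refine ⟨fun m => (m : L), 1, 1, x, Nat.cast_injective, fun m => by push_cast; ring,
        fun j => (e1 j).recAlong, e2, e3, ?_⟩
      rw [hm]
      exact e4
    tfae_have 3 → 1 := by
      rintro ⟨x, h1, h0, h2, h3⟩
      exact UDK.K.dom_of_crec (𝕜 := L) (x := x) hT' hp' hy h1 (h0 0) h2 h3
    tfae_have 4 → 5 := by
      rintro ⟨t, α, β, x, ht, hρ, h1, h0, h2, h3⟩
      obtain ⟨B, e1, e2, e3, e4⟩ := UDK.K.exB_of_rec (𝕜 := L) (t := t) (x := x) ht hρ h1 h3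
      exact ⟨B, x, e1, e2, e3, h0, h2, e4⟩
    tfae_have 5 → 1 := by
      rintro ⟨B, x, hB, hback, h1, -, h2, h3⟩
      exact UDK.K.dom_of_seq' (𝕜 := L) (x := x) hT' hp' hy hB hback h1 h2 h3
    tfae_finish
  · intro h
    obtain ⟨L, hL, V, hV⟩ := par_finite k T hT hp hy h
    exact ⟨L, hL, ⟨w, V, fun G hG =>
      ⟨fun h1 => (hV G hG).1 (hy.sub.mem G h1), fun h1 => hy.mem G hG ((hV G hG).2 h1)⟩⟩⟩
  · rintro ⟨L, -, hL⟩
    exact UDK.K.uni_of_dom hy hL

end Pool.Agent.Results.MP_b62148_ag.RecursiveUnirational
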